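import Mathlib
import Pool.Agent.V11110.JBStar

/-!
The Jordan product of the multiplier algebra of a JB*-algebra is separately J-strict continuous.
-/

open Topology Pool.Agent.V11110.JBStar

namespace Pool.Agent.Results.MP_6503f0_an.SeparateContinuity

/-- **Separate J-strict continuity of the Jordan product of `M(A)`.**  For every `x` in `M(A)` the
map `y ↦ x y` is continuous from `M(A)` to `M(A)` in the J-strict topology. -/
theorem result {A B : Type*} [JBStarAlgebra A] [JBStarAlgebra B] (E : Embedding A B)
    (x : Mult E) : Continuous (fun y : Mult E => x * y) := by
  rw [continuous_iff]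
  intro a
  have ha := mem_span_sq a
  induction ha using Submodule.span_induction with
  | mem z hz =>
    obtain ⟨b, rfl⟩ := hz
    obtain ⟨c, hc⟩ := exists_left x b
    have h : (fun y : Mult E => E.j (b * b) * (x * y).1) = fun y : Mult E =>
        x.1 * (E.j (b * b) * y.1) + (2 : ℂ) • (E.j b * (E.j c * y.1)) -
          (2 : ℂ) • (E.j c * (E.j b * y.1)) := by
      funext y
      rw [coe_mul, E.map_mul, sq_mul, hc]
    rw [h]
    have h1 := continuous_left (E := E) (b * b)
    have h2 := continuous_left (E := E) b
    have h3 := continuous_left (E := E) c
    exact ((continuous_const.mul h1).add ((continuous_const.mul h3).const_smul _)).sub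
      ((continuous_const.mul h2).const_smul _)
  | zero =>
    simp only [map_zero, zero_mul]
    exact continuous_const
  | add u v _ _ hu hv =>
    simp only [map_add, add_mul]
    exact hu.add hv
  | smul c u _ hu =>
    simp only [map_smul, smul_mul_assoc]
    exact hu.const_smul c

end Pool.Agent.Results.MP_6503f0_an.SeparateContinuity
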